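import Pool.Agent.N124.CU.Stm2

set_option autoImplicit false

/-!
# Project CU, parts `S_pt0` and `S_pt1` (helper953)
-/

namespace Pool.Agent.N953.CU

open Filter Topology Pool.Agent.N124.CU

section

variable {x : Fin 13 → ℝ} (K : Fld x)

lemma SL9 : SL ⊆ {9}ᶜ := fun _ hj => by
  simpa using hj.1

lemma SL11 : SL ⊆ {11}ᶜ := fun _ hj => by
  simpa using hj.2

include K

lemma e2_not : ((x 4 : ℂ) - x 9) ∉ K.K {9}ᶜ := by
  intro h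
  refine K.not_mem {9}ᶜ 9 (by simp) ?_
  have h4 : (x 4 : ℂ) ∈ K.K {9}ᶜ := K.mem _ 4 (by simp)
  have := sub_mem h4 h
  rwa [sub_sub_cancel] at this

lemma e3_not : ((x 4 : ℂ) - x 11) ∉ K.K {11}ᶜ := by
  intro h
  refine K.not_mem {11}ᶜ 11 (by simp) ?_
  have h4 : (x 4 : ℂ) ∈ K.K {11}ᶜ := K.mem _ 4 (by simp)
  have := sub_mem h4 h
  rwa [sub_sub_cancel] at this

lemma pr (hp : S_pair) {k3 k2 : Kd} {u3 v3 u2 v2 : ℂ → ℂ} {a3 c3 a2 c2 : ℂ}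
    (T3 : Ty k3 u3 v3 a3 c3) (T2 : Ty k2 u2 v2 a2 c2)
    (n3 : a3 ∈ K.K SL ∧ c3 ∈ K.K SL ∧ a3 ≠ 0 ∧ c3 ≠ 0)
    (n2 : a2 ∈ K.K SL ∧ c2 ∈ K.K SL ∧ a2 ≠ 0 ∧ c2 ≠ 0)
    (h : k3 = .I → k2 = .I → c3 ≠ c2) :
    ∃ c : ℂ, c ≠ 0 ∧ Tendsto (fun s => s ^ nn k3 k2 * Fx x (u3 s) (v3 s) (u2 s) (v2 s))
      (𝓝[≠] 0) (𝓝 c) := by
  have m2 := K.mono _ _ SL9
  have m3 := K.mono _ _ SL11
  exact hp (K.K {9}ᶜ) (K.K {11}ᶜ) (K.root _) (K.root _) (x 4) ((x 4 : ℂ) - x 9)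
    ((x 4 : ℂ) - x 11) (K.mem _ 4 (by simp)) (K.mem _ 4 (by simp)) (e2_not K)
    (sub_mem (K.mem _ 4 (by simp)) (K.mem _ 11 (by simp)))
    (sub_mem (K.mem _ 4 (by simp)) (K.mem _ 9 (by simp))) (e3_not K) k3 k2 u3 v3 u2 v2 a3 c3 a2 c2
    T3 T2 (m2 n3.1) (m2 n3.2.1) (m2 n2.1) (m2 n2.2.1) (m3 n3.1) (m3 n3.2.1) (m3 n2.1)
    (m3 n2.2.1) n3.2.2.1 n3.2.2.2 n2.2.2.1 n2.2.2.2 h

end

/-- `a1 ≠ a1 (al - be) / (a1 - bp)` -/
lemma gen_ne {P : Par} {L0 L : Subfield ℂ} (G : Gen P L0 L) :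
    P.a1 ≠ P.a1 * (P.al - P.be) / (P.a1 - P.bp) := by
  intro h
  have h2 : P.a1 - P.bp ≠ 0 := sub_ne_zero.2 G.h2
  rw [eq_div_iff h2] at h
  have h3 := mul_left_cancel₀ G.a10 h
  refine G.nbe ?_
  have h4 : P.be = P.al - (P.a1 - P.bp) := by rw [h3]; ring
  rw [h4]
  exact sub_mem G.mal (sub_mem G.ma1 G.mbp)

theorem t_pt0 : S_pt0 := by
  intro harm hpair hpairB hprod hgen x K
  obtain ⟨G3, G2⟩ := hgen x K
  obtain ⟨u3, v3, a3, c3, D3, N3, e31, e33, l3⟩ := harm (arm3 x) _ _ G3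
  obtain ⟨u2, v2, a2, c2, D2, N2, e21, e23, l2⟩ := harm (arm2 x) _ _ G2
  have m2 := K.mono _ _ SL9
  have ne13 : c3 1 ≠ c2 3 := by
    rw [e31, e23]
    exact gen_ne G2
  have ne31 : c3 3 ≠ c2 1 := by
    rw [e33, e21]
    exact (gen_ne G3).symm
  have ne33 : c3 3 ≠ c2 3 := by
    rw [e33, e23]
    intro h
    have h1 : (arm3 x).a1 - (arm3 x).bp ≠ 0 := sub_ne_zero.2 G3.h2
    have h2 : (arm2 x).a1 - (arm2 x).bp ≠ 0 := sub_ne_zero.2 G2.h2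
    have h0 : (arm3 x).a1 ≠ 0 := G3.a10
    simp only [arm3, arm2] at h h1 h2 h0
    have h5 : (x 12 : ℂ) = x 3 - (x 2 - x 10) / (x 1 - x 8) * (x 1 - x 7) := by
      have h6 : ((x 3 : ℂ) - x 12) / (x 1 - x 7) = (x 2 - x 10) / (x 1 - x 8) := by
        rw [mul_div_assoc, mul_div_assoc] at h
        exact mul_left_cancel₀ h0 h
      rw [← h6, div_mul_cancel₀ _ h1]
      ring
    refine K.not_mem {12}ᶜ 12 (by simp) ?_
    rw [h5]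
    exact sub_mem (K.mem _ 3 (by simp)) (mul_mem (div_mem
      (sub_mem (K.mem _ 2 (by simp)) (K.mem _ 10 (by simp)))
      (sub_mem (K.mem _ 1 (by simp)) (K.mem _ 8 (by simp))))
      (sub_mem (K.mem _ 1 (by simp)) (K.mem _ 7 (by simp))))
  have hc := hprod x 0 _ _ _ _ _ _ _ _ _ _ D3 D2 (fun i j => if i = 1 ∧ j = 1 then 1 else
    nn ((![.Z, .I, .F, .I] : Fin 4 → Kd) i) ((![.Z, .I, .F, .I] : Fin 4 → Kd) j)) (by
    intro i j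
    by_cases hij : i = 1 ∧ j = 1
    · obtain ⟨rfl, rfl⟩ := hij
      simp only [and_self, if_true]
      have T3 : Ty .I (u3 1) (v3 1) (a3 1) ((arm3 x).a1) := by
        have := D3.2 1
        rw [e31] at this
        exact this
      have T2 : Ty .I (u2 1) (v2 1) (a2 1) ((arm3 x).a1) := by
        have := D2.2 1
        rw [e21] at this
        exact this
      exact hpairB (K.K {9}ᶜ) (K.root _) (x 4) ((x 4 : ℂ) - x 9) ((x 4 : ℂ) - x 11) (e2_not K)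
        (sub_mem (K.mem _ 4 (by simp)) (K.mem _ 11 (by simp))) (u3 1) (v3 1) (u2 1) (v2 1)
        (arm3 x).eta (a3 1) (a2 1) ((arm3 x).a1) _ _ T3 T2 l3 l2 (m2 (N3 1).1) (m2 (N2 1).1)
        (K.mem _ 1 (by simp))
        (sub_mem (K.mem {9}ᶜ 12 (by simp)) (K.mem {9}ᶜ 7 (by simp)))
        (sub_mem (K.mem {9}ᶜ 10 (by simp)) (K.mem {9}ᶜ 8 (by simp))) G3.a10
    · rw [if_neg hij]
      refine pr K hpair (D3.2 i) (D2.2 j) (N3 i) (N2 j) ?_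
      intro hi hj
      fin_cases i <;> fin_cases j <;> simp at hi hj hij ⊢ <;> assumption)
  obtain ⟨c, hc0, hc⟩ := hc
  refine ⟨c, hc0, ?_⟩
  refine hc.congr fun s => ?_
  have hs : (∑ i : Fin 4, ∑ j : Fin 4, (if i = 1 ∧ j = 1 then (1 : ℤ) else
    nn ((![.Z, .I, .F, .I] : Fin 4 → Kd) i) ((![.Z, .I, .F, .I] : Fin 4 → Kd) j))) =
      ((18 : ℕ) : ℤ) := by
    decide
  rw [hs, zpow_natCast]

theorem t_pt1 : S_pt1 := by
  intro harm hpair hprod hgen x K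
  obtain ⟨G3, G2⟩ := hgen x K
  obtain ⟨u3, v3, a3, c3, D3, N3, e31⟩ := harm (arm3 x) _ _ G3
  obtain ⟨u2, v2, a2, c2, D2, N2, e21⟩ := harm (arm2 x) _ _ G2
  have ne11 : c3 1 ≠ c2 1 := by
    rw [e31, e21]
    intro h
    simp only [arm3, arm2] at h
    refine K.not_mem {5}ᶜ 5 (by simp) ?_
    have h5 : (x 5 : ℂ) = x 6 - x 8 + x 7 := by linear_combination h
    rw [h5]
    exact add_mem (sub_mem (K.mem _ 6 (by simp)) (K.mem _ 8 (by simp))) (K.mem _ 7 (by simp))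
  have hc := hprod x (-1) _ _ _ _ _ _ _ _ _ _ D3 D2 (fun i j =>
    nn ((![.Z, .I, .F, .F] : Fin 4 → Kd) i) ((![.Z, .I, .F, .F] : Fin 4 → Kd) j)) (by
    intro i j
    refine pr K hpair (D3.2 i) (D2.2 j) (N3 i) (N2 j) ?_
    intro hi hj
    fin_cases i <;> fin_cases j <;> simp at hi hj ⊢ <;> assumption)
  obtain ⟨c, hc0, hc⟩ := hc
  refine ⟨c, hc0, ?_⟩
  refine hc.congr fun s => ?_
  have hs : (∑ i : Fin 4, ∑ j : Fin 4,
    nn ((![.Z, .I, .F, .F] : Fin 4 → Kd) i) ((![.Z, .I, .F, .F] : Fin 4 → Kd) j)) =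
      ((11 : ℕ) : ℤ) := by
    decide
  rw [hs, zpow_natCast]

end Pool.Agent.N953.CU
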